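import Pool.Agent.Helper12.TS.St
import Pool.Agent.Helper45.NK.M_PAR
import Pool.Agent.Helper61.NK.M_MNR

/-!
# Project TS, module THC: two connected sets, three legs from a triangle
-/

set_option autoImplicit false

namespace Pool.Agent.Helper11.TS

open Pool.Agent.Helper12.TS
open Pool.Agent.Helper51.AJ (IsMinor Planar Apex ExMinor Con Tch)
open Pool.Agent.Helper51.AJ (con_union con_singleton con_nonempty tch_mono tch_symm)
open Pool.Agent.Helper12.NK (rst Kc add)

variable {V : Type}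

/-- a configuration -/
private def Cfg (H : SimpleGraph V) (C : Set V) (s : Fin 3 → V) (q : Set V × Set V × (Fin 3 → Set V)) : Prop :=
  q.1 ⊆ C ∧ q.2.1 ⊆ C ∧ Con H q.1 ∧ Con H q.2.1 ∧ Disjoint q.1 q.2.1 ∧
  (∀ i, Con H (q.2.2 i) ∧ s i ∈ q.2.2 i ∧ q.2.2 i ⊆ insert (s i) C ∧ Disjoint (q.2.2 i) q.1 ∧ Disjoint (q.2.2 i) q.2.1 ∧
    Tch H q.1 (q.2.2 i) ∧ Tch H q.2.1 (q.2.2 i)) ∧
  ∀ i j, i ≠ j → Disjoint (q.2.2 i) (q.2.2 j)

private lemma cfg_swap {H : SimpleGraph V} {C : Set V} {s : Fin 3 → V} {Q Q' : Set V} {L : Fin 3 → Set V}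
    (h : Cfg H C s (Q, Q', L)) : Cfg H C s (Q', Q, L) := by
  obtain ⟨h1, h2, h3, h4, h5, h6, h7⟩ := h
  refine ⟨h2, h1, h4, h3, h5.symm, fun i => ?_, h7⟩
  obtain ⟨a, b, c, d, e, f, g⟩ := h6 i
  exact ⟨a, b, c, e, d, g, f⟩

/-- a component of a leg touching `Q` and not `Q'` gives a larger configuration -/
private lemma bigger [Finite V] (hCMP : StCMP) {H : SimpleGraph V} {C : Set V} {s : Fin 3 → V} {Q Q' : Set V}
    {L : Fin 3 → Set V} (h : Cfg H C s (Q, Q', L)) (i : Fin 3) {M : Set V} (hM : Cmp H (L i \ {s i})ᶜ M)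
    (h1 : Tch H Q M) (h2 : ¬ Tch H Q' M) : ∃ L', Cfg H C s (Q ∪ M, Q', L') ∧ Q.ncard < (Q ∪ M).ncard := by
  obtain ⟨g1, g2, g3, g4, g5, g6, g7⟩ := h
  simp only at g1 g2 g3 g4 g5 g6 g7
  obtain ⟨a, b, c, d, e, f, g⟩ := g6 i
  have hMS : M ⊆ L i \ {s i} := fun x hx => by
    by_contra hc
    exact Set.disjoint_left.1 hM.1 hx hc
  have hMC : M ⊆ C := fun x hx => by
    rcases c (hMS hx).1 with h | h
    · exact absurd h (hMS hx).2
    · exact h
  obtain ⟨k1, k2⟩ := (hCMP V H ∅).2.2.2.2.2.2 (L i) M (s i) a b hM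
  have hne := con_nonempty hM.2.1
  have hMQ : Disjoint M Q := Set.disjoint_of_subset_left (fun x hx => (hMS hx).1) d
  have hMQ' : Disjoint M Q' := Set.disjoint_of_subset_left (fun x hx => (hMS hx).1) e
  have hLj : ∀ j, j ≠ i → L j \ M = L j := fun j hj => by
    refine sdiff_eq_left.2 (Set.disjoint_of_subset_right (fun x hx => (hMS hx).1) (g7 j i hj))
  refine ⟨fun j => L j \ M, ⟨Set.union_subset g1 hMC, g2, con_union g3 hM.2.1 h1, g4,
    Set.disjoint_union_left.2 ⟨g5, hMQ'⟩, fun j => ?_, fun j k hjk => ?_⟩, ?_⟩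
  · simp only
    by_cases hj : j = i
    · subst hj
      refine ⟨k2, ⟨b, fun hx => (hMS hx).2 rfl⟩, Set.sdiff_subset.trans c, ?_, Set.disjoint_of_subset_left Set.sdiff_subset e, ?_, ?_⟩
      · exact Set.disjoint_union_right.2 ⟨Set.disjoint_of_subset_left Set.sdiff_subset d, Set.disjoint_sdiff_left⟩
      · obtain ⟨x, hx, y, hy, hxy⟩ := k1
        rw [Set.mem_singleton_iff] at hx
        subst hx
        exact ⟨y, Or.inr hy, _, ⟨b, fun hx => (hMS hx).2 rfl⟩, hxy.symm⟩
      · obtain ⟨x, hx, y, hy, hxy⟩ := g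
        exact ⟨x, hx, y, ⟨hy, fun hyM => h2 ⟨x, hx, y, hyM, hxy⟩⟩, hxy⟩
    · obtain ⟨a', b', c', d', e', f', g'⟩ := g6 j
      rw [hLj j hj]
      refine ⟨a', b', c', Set.disjoint_union_right.2 ⟨d', ?_⟩, e', tch_mono f' Set.subset_union_left subset_rfl, g'⟩
      exact Set.disjoint_of_subset_right (fun x hx => (hMS hx).1) (g7 j i hj)
  · exact Set.disjoint_of_subset Set.sdiff_subset Set.sdiff_subset (g7 j k hjk)
  · refine Set.ncard_lt_ncard ?_ (Set.toFinite _)
    refine ⟨Set.subset_union_left, fun hsub => ?_⟩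
    obtain ⟨x, hx⟩ := hne
    exact Set.disjoint_left.1 hMQ hx (hsub (Or.inr hx))

/-- a nonempty set of pairwise adjacent vertices is connected -/
private lemma con_clique {H : SimpleGraph V} {T : Set V} (h0 : T.Nonempty) (h : ∀ a ∈ T, ∀ b ∈ T, a ≠ b → H.Adj a b) :
    Con H T := by
  obtain ⟨t, ht⟩ := h0
  have : Nonempty T := ⟨⟨t, ht⟩⟩
  refine SimpleGraph.Connected.mk fun a b => ?_
  by_cases hab : a = b
  · rw [hab]
  · exact SimpleGraph.Adj.reachable (h a.1 a.2 b.1 b.2 fun hc => hab (Subtype.ext hc))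

theorem hTHC : StPTN → StCMP → StTHC := by
  intro _ hCMP V _ H C s Q Q' L hC hsC hadj hQ hQ' hcQ hcQ' hQQ' hL hLL hP
  obtain ⟨⟨Q, Q', L⟩, hcfg, hmax⟩ := Set.exists_max_image {q : Set V × Set V × (Fin 3 → Set V) | Cfg H C s q}
    (fun q => q.1.ncard + q.2.1.ncard) (Set.toFinite _) ⟨(Q, Q', L), hQ, hQ', hcQ, hcQ', hQQ', hL, hLL⟩
  simp only [Set.mem_ofPred_eq] at hcfg hmax
  have hinj : ∀ i j, i ≠ j → s i ≠ s j := fun i j hij => H.ne_of_adj (hadj i j hij)
  -- components of the legs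
  have hcomp : ∀ i M, Cmp H (L i \ {s i})ᶜ M → (Tch H Q M ↔ Tch H Q' M) := by
    intro i M hM
    constructor
    · intro h1
      by_contra h2
      obtain ⟨L', h3, h4⟩ := bigger hCMP hcfg i hM h1 h2
      have := hmax _ h3
      simp only at this
      omega
    · intro h1
      by_contra h2
      obtain ⟨L', h3, h4⟩ := bigger hCMP (cfg_swap hcfg) i hM h1 h2
      have := hmax _ (cfg_swap h3)
      simp only at this
      omega
  obtain ⟨hQ, hQ', hcQ, hcQ', hQQ', hL, hLL⟩ := hcfg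
  simp only at hQ hQ' hcQ hcQ' hQQ' hL hLL
  -- the two cases for a leg
  let B : Fin 3 → Set V → Prop := fun i c => Con H c ∧ c ⊆ L i \ {s i} ∧ Tch H {s i} c ∧ Tch H Q c ∧ Tch H Q' c
  have hcase : ∀ i, (¬ ∃ c, B i c) → Tch H Q {s i} ∧ Tch H Q' {s i} := by
    intro i hB
    obtain ⟨a, b, c, d, e, f, g⟩ := hL i
    have key : ∀ y ∈ L i, y ≠ s i → (∃ x ∈ Q, H.Adj x y) ∨ (∃ x ∈ Q', H.Adj x y) → False := by
      intro y hy hys hxy
      obtain ⟨M, hM, hyM⟩ := (hCMP V H (L i \ {s i})ᶜ).1 y (by simp [hy, hys])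
      have hMS : M ⊆ L i \ {s i} := fun x hx => by
        by_contra hc
        exact Set.disjoint_left.1 hM.1 hx hc
      have h2 : Tch H Q M ∧ Tch H Q' M := by
        rcases hxy with ⟨x, hx, hxy⟩ | ⟨x, hx, hxy⟩
        · have h1 : Tch H Q M := ⟨x, hx, y, hyM, hxy⟩
          exact ⟨h1, (hcomp i M hM).1 h1⟩
        · have h1 : Tch H Q' M := ⟨x, hx, y, hyM, hxy⟩
          exact ⟨(hcomp i M hM).2 h1, h1⟩
      exact hB ⟨M, hM.2.1, hMS, ((hCMP V H ∅).2.2.2.2.2.2 (L i) M (s i) a b hM).1, h2.1, h2.2⟩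
    constructor
    · obtain ⟨x, hx, y, hy, hxy⟩ := f
      by_cases hys : y = s i
      · exact ⟨x, hx, y, hys, hxy⟩
      · exact (key y hy hys (Or.inl ⟨x, hx, hxy⟩)).elim
    · obtain ⟨x, hx, y, hy, hxy⟩ := g
      by_cases hys : y = s i
      · exact ⟨x, hx, y, hys, hxy⟩
      · exact (key y hy hys (Or.inr ⟨x, hx, hxy⟩)).elim
  have hMNR := Pool.Agent.Helper61.NK.hMNR V H hP
  by_cases hall : ∀ i, ¬ ∃ c, B i c
  · -- `K₅`
    obtain ⟨K, K', h1, h2, h3, h4, h5, h6, h7⟩ := Pool.Agent.Helper45.NK.hPAR V H C Q Q' hC hcQ hcQ' hQ hQ' hQQ'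
    have hKC : K ⊆ C := h4 ▸ Set.subset_union_left
    have hKC' : K' ⊆ C := h4 ▸ Set.subset_union_right
    have d1 : ∀ i, Disjoint K {s i} := fun i => Set.disjoint_singleton_right.2 fun h => hsC i (hKC h)
    have d2 : ∀ i, Disjoint K' {s i} := fun i => Set.disjoint_singleton_right.2 fun h => hsC i (hKC' h)
    have d3 : ∀ i j, i ≠ j → Disjoint ({s i} : Set V) {s j} := fun i j hij =>
      Set.disjoint_singleton.2 (hinj i j hij)
    have t1 : ∀ i, Tch H K {s i} := fun i => tch_mono (hcase i (hall i)).1 h1 subset_rfl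
    have t2 : ∀ i, Tch H K' {s i} := fun i => tch_mono (hcase i (hall i)).2 h2 subset_rfl
    have t3 : ∀ i j, i ≠ j → Tch H {s i} {s j} := fun i j hij => ⟨s i, rfl, s j, rfl, hadj i j hij⟩
    refine hMNR.1 ![K, K', {s 0}, {s 1}, {s 2}] ?_ ?_ ?_
    · intro i
      fin_cases i
      · exact h5
      · exact h6
      · exact con_singleton H _
      · exact con_singleton H _
      · exact con_singleton H _
    · intro i j hij
      fin_cases i <;> fin_cases j
      all_goals first
        | exact absurd rfl hij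
        | exact h3
        | exact h3.symm
        | exact d1 _
        | exact (d1 _).symm
        | exact d2 _
        | exact (d2 _).symm
        | exact d3 _ _ (by decide)
    · intro i j hij
      fin_cases i <;> fin_cases j
      all_goals first
        | exact absurd rfl hij
        | exact h7
        | exact tch_symm h7
        | exact t1 _
        | exact tch_symm (t1 _)
        | exact t2 _
        | exact tch_symm (t2 _)
        | exact t3 _ _ (by decide)
  · -- `K₃,₃`
    push Not at hall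
    obtain ⟨i₀, c₀, hc₀⟩ := hall
    classical
    let e : Fin 3 → Set V := fun i => if h : ∃ c, B i c then h.choose else {s i}
    have heB : ∀ i, (∃ c, B i c) → B i (e i) := fun i h => by
      have : e i = h.choose := dif_pos h
      rw [this]
      exact h.choose_spec
    have heA : ∀ i, (¬ ∃ c, B i c) → e i = {s i} := fun i h => dif_neg h
    have heL : ∀ i, e i ⊆ L i := fun i => by
      by_cases h : ∃ c, B i c
      · exact (heB i h).2.1.trans Set.sdiff_subset
      · rw [heA i h]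
        exact Set.singleton_subset_iff.2 (hL i).2.1
    let T : Set V := {x | ∃ i, (∃ c, B i c) ∧ x = s i}
    have hTC : ∀ x ∈ T, x ∉ C := by
      rintro x ⟨i, _, rfl⟩
      exact hsC i
    have hT : Con H T := by
      refine con_clique ⟨s i₀, i₀, ⟨c₀, hc₀⟩, rfl⟩ ?_
      rintro a ⟨i, _, rfl⟩ b ⟨j, _, rfl⟩ hab
      exact hadj i j fun h => hab (by rw [h])
    have he1 : ∀ i, Con H (e i) := fun i => by
      by_cases h : ∃ c, B i c
      · exact (heB i h).1
      · rw [heA i h]
        exact con_singleton H _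
    have he2 : ∀ i, Tch H Q (e i) ∧ Tch H Q' (e i) := fun i => by
      by_cases h : ∃ c, B i c
      · exact ⟨(heB i h).2.2.2.1, (heB i h).2.2.2.2⟩
      · rw [heA i h]
        exact hcase i h
    have he3 : ∀ i, Tch H T (e i) := fun i => by
      by_cases h : ∃ c, B i c
      · exact tch_mono (heB i h).2.2.1 (Set.singleton_subset_iff.2 ⟨i, h, rfl⟩) subset_rfl
      · rw [heA i h]
        refine ⟨s i₀, ⟨i₀, ⟨c₀, hc₀⟩, rfl⟩, s i, rfl, hadj i₀ i ?_⟩
        rintro rfl
        exact h ⟨c₀, hc₀⟩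
    have he4 : ∀ i, Disjoint T (e i) := fun i => by
      by_cases h : ∃ c, B i c
      · refine Set.disjoint_left.2 fun x hx hxe => hTC x hx ?_
        have := (heB i h).2.1 hxe
        rcases (hL i).2.2.1 this.1 with h' | h'
        · exact absurd h' this.2
        · exact h'
      · rw [heA i h]
        refine Set.disjoint_singleton_right.2 ?_
        rintro ⟨j, hj, hij⟩
        by_cases hji : i = j
        · subst hji
          exact h hj
        · exact hinj i j hji hij
    refine hMNR.2 ![Q, Q', T] e ?_ he1 ?_ (fun i j hij => Set.disjoint_of_subset (heL i) (heL j) (hLL i j hij)) ?_ ?_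
    · intro i
      fin_cases i
      · exact hcQ
      · exact hcQ'
      · exact hT
    · have dQ : Disjoint Q T := Set.disjoint_left.2 fun x hx hxT => hTC x hxT (hQ hx)
      have dQ' : Disjoint Q' T := Set.disjoint_left.2 fun x hx hxT => hTC x hxT (hQ' hx)
      intro i j hij
      fin_cases i <;> fin_cases j
      all_goals first
        | exact absurd rfl hij
        | exact hQQ'
        | exact hQQ'.symm
        | exact dQ
        | exact dQ.symm
        | exact dQ'
        | exact dQ'.symm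
    · intro i j
      fin_cases i
      · exact (Set.disjoint_of_subset_left (heL j) (hL j).2.2.2.1).symm
      · exact (Set.disjoint_of_subset_left (heL j) (hL j).2.2.2.2.1).symm
      · exact he4 j
    · intro i j
      fin_cases i
      · exact (he2 j).1
      · exact (he2 j).2
      · exact he3 j

end Pool.Agent.Helper11.TS
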